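import Mathlib

set_option autoImplicit false

/-!
# Cliques of cubic size in the fifth xor-power of a Kneser graph

There are five sets `A_0, …, A_4` of points of the Fano plane such that every point and every line
of the plane meets an even number of them.  For a vector `x` of three elements of an elementary
abelian `2`-group `W` and for `a ∈ F_2^3` let `⟨a, x⟩` be the corresponding sum.  The tuples of the
sets `{(j, ⟨a_{i,j}, x⟩) : j < k}`, where the `a_{i,j}`, `j < k`, run through `A_i`, form a clique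
with `|W|^3` elements.
-/

namespace Pool.Agent.Results.MP_e3e024_co.FanoCubic

open Finset Filter Asymptotics

/-- The `ℓ`-th xor-power of the Kneser graph `KG(n,k)`: the vertices are the `ℓ`-tuples of
`k`-element subsets of `Fin n`; two distinct tuples are adjacent iff the number of indices at which
they have disjoint entries is odd. -/
def xorPower (ℓ n k : ℕ) : SimpleGraph (Fin ℓ → {S : Finset (Fin n) // S.card = k}) where
  Adj X Y := X ≠ Y ∧ Odd (univ.filter fun i => Disjoint (X i).1 (Y i).1).card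
  symm := ⟨fun X Y h => ⟨h.1.symm, by simpa only [disjoint_comm] using h.2⟩⟩
  loopless := ⟨fun _ h => h.1 rfl⟩

/-- The clique number `f_ℓ(n,k)` of the `ℓ`-th xor-power of `KG(n,k)`. -/
noncomputable def f (ℓ n k : ℕ) : ℕ := (xorPower ℓ n k).cliqueNum

/-- The elementary abelian group. -/
abbrev W (r : ℕ) : Type := Fin r → ZMod 2

/-- Coefficient vectors. -/
abbrev Co : Type := Bool × Bool × Bool

/-- The sum `⟨a, x⟩`. -/
def lin {r : ℕ} (a : Co) (x : W r × W r × W r) : W r := fun s =>
  (if a.1 then x.1 s else 0) + (if a.2.1 then x.2.1 s else 0) + (if a.2.2 then x.2.2 s else 0)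

/-- The sum of two coefficient vectors. -/
def cadd (a b : Co) : Co := (xor a.1 b.1, xor a.2.1 b.2.1, xor a.2.2 b.2.2)

lemma lin_cadd {r : ℕ} (a b : Co) (x : W r × W r × W r) : lin (cadd a b) x = lin a x + lin b x := by
  funext s
  simp only [lin, cadd, Pi.add_apply]
  generalize x.1 s = u
  generalize x.2.1 s = v
  generalize x.2.2 s = w
  obtain ⟨a1, a2, a3⟩ := a
  obtain ⟨b1, b2, b3⟩ := b
  revert a1 a2 a3 b1 b2 b3 u v w
  decide

/-- The five sets of points of the Fano plane. -/
def A : Fin 5 → List Co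
  | 0 => [(false, true, true)]
  | 1 => [(false, false, true), (false, true, false)]
  | 2 => [(true, false, false), (true, false, true), (true, true, false)]
  | 3 => [(false, true, false), (false, true, true), (true, false, false), (true, true, true)]
  | 4 => [(false, false, true), (true, false, true), (true, true, false), (true, true, true)]

/-- The coefficient vector used for the `j`-th element of the `i`-th set. -/
def sel (i : Fin 5) (j : ℕ) : Co := (A i).getD j ((A i).getD 0 (false, false, false))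

lemma exists_sel {k : ℕ} (hk : 4 ≤ k) (i : Fin 5) (q : Co → Prop) :
    (∃ j : Fin k, q (sel i j)) ↔ ∃ a ∈ A i, q a := by
  constructor
  · rintro ⟨j, hj⟩
    refine ⟨sel i j, ?_, hj⟩
    unfold sel
    have key : ∀ i : Fin 5, (A i).getD 0 (false, false, false) ∈ A i := by decide
    by_cases h : (j : ℕ) < (A i).length
    · rw [List.getD_eq_getElem _ _ h]
      exact List.getElem_mem h
    · rw [List.getD_eq_default _ _ (by omega)]
      exact key i
  · rintro ⟨a, ha, hq⟩
    obtain ⟨j, hj, rfl⟩ := List.getElem_of_mem ha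
    have hlen : ∀ i : Fin 5, (A i).length ≤ 4 := by decide
    refine ⟨⟨j, by have := hlen i; omega⟩, ?_⟩
    unfold sel
    rw [List.getD_eq_getElem _ _ hj]
    exact hq

/-- The `i`-th set of the tuple belonging to `x`. -/
def setOf {r n k : ℕ} (code : Fin k × W r ↪ Fin n) (i : Fin 5) (x : W r × W r × W r) :
    Finset (Fin n) := univ.image fun j : Fin k => code (j, lin (sel i j) x)

lemma card_setOf {r n k : ℕ} (code : Fin k × W r ↪ Fin n) (i : Fin 5) (x : W r × W r × W r) :
    (setOf code i x).card = k := by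
  unfold setOf
  rw [card_image_of_injective, card_univ, Fintype.card_fin]
  intro j j' h
  exact (Prod.ext_iff.mp (code.injective h)).1

lemma disjoint_iff {r n k : ℕ} (hk : 4 ≤ k) (code : Fin k × W r ↪ Fin n) (i : Fin 5)
    (x y : W r × W r × W r) :
    Disjoint (setOf code i x) (setOf code i y) ↔ ∀ a ∈ A i, lin a x ≠ lin a y := by
  have h1 : ¬ Disjoint (setOf code i x) (setOf code i y) ↔
      ∃ j : Fin k, lin (sel i j) x = lin (sel i j) y := by
    rw [Finset.not_disjoint_iff]
    unfold setOf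
    simp only [Finset.mem_image, Finset.mem_univ, true_and]
    constructor
    · rintro ⟨_, ⟨j, rfl⟩, ⟨j', h⟩⟩
      have h2 := Prod.ext_iff.mp (code.injective h)
      obtain ⟨h3, h4⟩ := h2
      simp only at h3 h4
      subst h3
      exact ⟨j', h4.symm⟩
    · rintro ⟨j, h⟩
      exact ⟨_, ⟨j, rfl⟩, ⟨j, by rw [h]⟩⟩
  rw [exists_sel hk i (fun a => lin a x = lin a y)] at h1
  constructor
  · intro h a ha h2
    exact (h1.mpr ⟨a, ha, h2⟩) h
  · intro h
    by_contra h2
    obtain ⟨a, ha, h3⟩ := h1.mp h2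
    exact h a ha h3

/-- The parity property of the configuration, in terms of the truth values at the seven points:
`p1, p2, p3` are the points `001, 010, 011` and `p4, …, p7` the points `100, …, 111`. -/
lemma parity_bool : ∀ p1 p2 p3 p4 p5 p6 p7 : Bool,
    ((!(p1 && p2) || p3) && (!(p1 && p3) || p2) && (!(p2 && p3) || p1) &&
    (!(p1 && p4) || p5) && (!(p1 && p5) || p4) && (!(p4 && p5) || p1) &&
    (!(p1 && p6) || p7) && (!(p1 && p7) || p6) && (!(p6 && p7) || p1) &&
    (!(p2 && p4) || p6) && (!(p2 && p6) || p4) && (!(p4 && p6) || p2) &&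
    (!(p2 && p5) || p7) && (!(p2 && p7) || p5) && (!(p5 && p7) || p2) &&
    (!(p3 && p4) || p7) && (!(p3 && p7) || p4) && (!(p4 && p7) || p3) &&
    (!(p3 && p5) || p6) && (!(p3 && p6) || p5) && (!(p5 && p6) || p3)) = true →
    ¬ (p4 = true ∧ p2 = true ∧ p1 = true) →
    Odd ((if p3 = false then 1 else 0) + (if p1 = false ∧ p2 = false then 1 else 0) +
      (if p4 = false ∧ p5 = false ∧ p6 = false then 1 else 0) +
      (if p2 = false ∧ p3 = false ∧ p4 = false ∧ p7 = false then 1 else 0) +
      (if p1 = false ∧ p5 = false ∧ p6 = false ∧ p7 = false then 1 else 0)) := by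
  decide

/-- The parity property of the configuration. -/
lemma parity (F : Co → Bool) (hadd : ∀ a b, F a = true → F b = true → F (cadd a b) = true)
    (hne : ¬ (F (true, false, false) = true ∧ F (false, true, false) = true ∧
      F (false, false, true) = true)) :
    Odd (univ.filter fun i => ∀ a ∈ A i, F a = false).card := by
  have h : ∀ a b c, cadd a b = c → (!(F a && F b) || F c) = true := by
    intro a b c hc
    have := hadd a b
    rw [hc] at this
    cases ha : F a <;> cases hb : F b <;> cases hc : F c <;> simp_all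
  have hc : (univ.filter fun i => ∀ a ∈ A i, F a = false).card =
      (if F (false, true, true) = false then 1 else 0) +
      (if F (false, false, true) = false ∧ F (false, true, false) = false then 1 else 0) +
      (if F (true, false, false) = false ∧ F (true, false, true) = false ∧
        F (true, true, false) = false then 1 else 0) +
      (if F (false, true, false) = false ∧ F (false, true, true) = false ∧
        F (true, false, false) = false ∧ F (true, true, true) = false then 1 else 0) +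
      (if F (false, false, true) = false ∧ F (true, false, true) = false ∧
        F (true, true, false) = false ∧ F (true, true, true) = false then 1 else 0) := by
    rw [card_filter, Fin.sum_univ_five]
    simp [A]
  rw [hc]
  refine parity_bool _ _ _ _ _ _ _ ?_ hne
  simp only [Bool.and_eq_true]
  refine ⟨⟨⟨⟨⟨⟨⟨⟨⟨⟨⟨⟨⟨⟨⟨⟨⟨⟨⟨⟨?_, ?_⟩, ?_⟩, ?_⟩, ?_⟩, ?_⟩, ?_⟩, ?_⟩, ?_⟩, ?_⟩, ?_⟩, ?_⟩, ?_⟩, ?_⟩,
    ?_⟩, ?_⟩, ?_⟩, ?_⟩, ?_⟩, ?_⟩, ?_⟩ <;> exact h _ _ _ rfl

/-- The clique with `|W|^3` vertices. -/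
lemma clique {r n k : ℕ} (hk : 4 ≤ k) (hn : k * 2 ^ r ≤ n) : (2 ^ r) ^ 3 ≤ f 5 n k := by
  classical
  have hcard : Fintype.card (Fin k × W r) ≤ Fintype.card (Fin n) := by
    simpa using hn
  obtain ⟨code⟩ := Function.Embedding.nonempty_of_card_le hcard
  let Φ : W r × W r × W r → (Fin 5 → {S : Finset (Fin n) // S.card = k}) :=
    fun x i => ⟨setOf code i x, card_setOf code i x⟩
  have hodd : ∀ x y, x ≠ y → Odd (univ.filter fun i => Disjoint (Φ x i).1 (Φ y i).1).card := by
    intro x y hxy
    have h1 : (univ.filter fun i => Disjoint (Φ x i).1 (Φ y i).1) =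
        univ.filter fun i => ∀ a ∈ A i, (decide (lin a x = lin a y)) = false := by
      ext i
      simp only [Finset.mem_filter, Finset.mem_univ, true_and, Φ, disjoint_iff hk code i x y,
        decide_eq_false_iff_not]
    rw [h1]
    apply parity
    · intro a b ha hb
      rw [decide_eq_true_eq] at *
      rw [lin_cadd, lin_cadd, ha, hb]
    · simp only [decide_eq_true_eq]
      rintro ⟨h2, h3, h4⟩
      apply hxy
      refine Prod.ext ?_ (Prod.ext ?_ ?_)
      · funext s
        simpa [lin] using congrFun h2 s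
      · funext s
        simpa [lin] using congrFun h3 s
      · funext s
        simpa [lin] using congrFun h4 s
  have hadj : ∀ x y, x ≠ y → (xorPower 5 n k).Adj (Φ x) (Φ y) := by
    intro x y hxy
    refine ⟨?_, hodd x y hxy⟩
    intro heq
    obtain ⟨i, hi⟩ := Finset.card_pos.mp (hodd x y hxy).pos
    rw [Finset.mem_filter, heq, disjoint_self, Finset.bot_eq_empty] at hi
    have := (Φ y i).2
    rw [hi.2, Finset.card_empty] at this
    omega
  have hinj : Function.Injective Φ := by
    intro x y h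
    by_contra hxy
    exact (hadj x y hxy).1 h
  have hclique : (xorPower 5 n k).IsClique
      ((univ : Finset (W r × W r × W r)).image Φ : Finset _) := by
    intro X hX Y hY hXY
    rw [coe_image] at hX hY
    obtain ⟨x, -, rfl⟩ := hX
    obtain ⟨y, -, rfl⟩ := hY
    exact hadj x y fun h => hXY (by rw [h])
  have h2 := hclique.card_le_cliqueNum
  rw [card_image_of_injective _ hinj, card_univ] at h2
  calc (2 ^ r) ^ 3 = Fintype.card (W r × W r × W r) := by
        simp [Fintype.card_prod, ZMod.card]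
        ring
    _ ≤ f 5 n k := h2

/-- For all `k ≥ 4` and `n ≥ k` one has `f_5(n,k) ≥ n^3 / (8 k^3)`. -/
theorem cubic {n k : ℕ} (hk : 4 ≤ k) (hn : k ≤ n) : n ^ 3 ≤ 8 * k ^ 3 * f 5 n k := by
  have hq : n / k ≠ 0 := (Nat.div_pos hn (by omega)).ne'
  set r := Nat.log 2 (n / k) with hr
  have h1 : 2 ^ r ≤ n / k := Nat.pow_log_le_self 2 hq
  have h2 : n / k < 2 ^ (r + 1) := Nat.lt_pow_succ_log_self (by norm_num) _
  have h3 : k * 2 ^ r ≤ n := by
    calc k * 2 ^ r ≤ k * (n / k) := Nat.mul_le_mul_left k h1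
      _ ≤ n := Nat.mul_div_le n k
  have h4 : n ≤ 2 * k * 2 ^ r := by
    have := Nat.div_lt_iff_lt_mul (show 0 < k by omega) |>.mp h2
    calc n ≤ 2 ^ (r + 1) * k := this.le
      _ = 2 * k * 2 ^ r := by ring
  calc n ^ 3 ≤ (2 * k * 2 ^ r) ^ 3 := Nat.pow_le_pow_left h4 3
    _ = 8 * k ^ 3 * (2 ^ r) ^ 3 := by ring
    _ ≤ 8 * k ^ 3 * f 5 n k := Nat.mul_le_mul_left _ (clique hk h3)

/-- For `ℓ = 5` and every `k ≥ 4` the clique number `f_5(n,k)` is at least `n^3 / (8 k^3)` for all
`n ≥ k`; in particular it is not true that for every `ℓ ≥ 1` and all sufficiently large `k` one has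
`f_ℓ(n,k) = Θ(n^⌊log_2(ℓ+1)⌋)`. -/
theorem result :
    (∀ k n : ℕ, 4 ≤ k → k ≤ n → (n : ℝ) ^ 3 / (8 * (k : ℝ) ^ 3) ≤ f 5 n k) ∧
    ¬ ∀ ℓ : ℕ, 1 ≤ ℓ → ∃ k₀ : ℕ, ∀ k ≥ k₀,
      (fun n : ℕ => (f ℓ n k : ℝ)) =Θ[atTop] fun n : ℕ => (n : ℝ) ^ Nat.log 2 (ℓ + 1) := by
  have hmain : ∀ k n : ℕ, 4 ≤ k → k ≤ n → (n : ℝ) ^ 3 / (8 * (k : ℝ) ^ 3) ≤ f 5 n k := by
    intro k n hk hn
    have hk0 : (0 : ℝ) < k := by
      have : 0 < k := by omega
      exact_mod_cast this
    rw [div_le_iff₀ (by positivity)]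
    have := cubic hk hn
    calc (n : ℝ) ^ 3 ≤ 8 * (k : ℝ) ^ 3 * f 5 n k := by exact_mod_cast this
      _ = f 5 n k * (8 * (k : ℝ) ^ 3) := by ring
  refine ⟨hmain, ?_⟩
  intro h
  obtain ⟨k₀, hk₀⟩ := h 5 (by norm_num)
  have h1 := hk₀ (max k₀ 4) (le_max_left _ _)
  set k := max k₀ 4 with hk
  have hk4 : 4 ≤ k := le_max_right _ _
  have hlog : Nat.log 2 (5 + 1) = 2 := by norm_num [Nat.log]
  rw [hlog] at h1
  obtain ⟨C, hC⟩ := h1.1.bound
  rw [eventually_atTop] at hC
  obtain ⟨N, hN⟩ := hC
  have hk0 : (0 : ℝ) < k := by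
    have : 0 < k := by omega
    exact_mod_cast this
  obtain ⟨M, hM⟩ := exists_nat_gt (C * (8 * (k : ℝ) ^ 3))
  set n := max (max N k) (M + 1) with hn
  have h2 := hN n ((le_max_left _ _).trans (le_max_left _ _))
  have h3 := hmain k n hk4 ((le_max_right _ _).trans (le_max_left _ _))
  have hMn : (M : ℝ) < n := by
    have : M < n := lt_of_lt_of_le (Nat.lt_succ_self M) (le_max_right _ _)
    exact_mod_cast this
  have hn0 : (0 : ℝ) < n := by
    have : 0 < n := lt_of_lt_of_le (Nat.succ_pos M) (le_max_right _ _)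
    exact_mod_cast this
  simp only [Real.norm_eq_abs, Nat.abs_cast, abs_pow] at h2
  rw [div_le_iff₀ (by positivity)] at h3
  have h4 : (n : ℝ) ^ 3 ≤ C * (n : ℝ) ^ 2 * (8 * (k : ℝ) ^ 3) :=
    h3.trans (mul_le_mul_of_nonneg_right h2 (by positivity))
  have h5 : (n : ℝ) ≤ C * (8 * (k : ℝ) ^ 3) := by
    have h6 : (n : ℝ) ^ 2 * n ≤ (n : ℝ) ^ 2 * (C * (8 * (k : ℝ) ^ 3)) := by
      calc (n : ℝ) ^ 2 * n = (n : ℝ) ^ 3 := by ring
        _ ≤ C * (n : ℝ) ^ 2 * (8 * (k : ℝ) ^ 3) := h4
        _ = (n : ℝ) ^ 2 * (C * (8 * (k : ℝ) ^ 3)) := by ring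
    exact le_of_mul_le_mul_left h6 (by positivity)
  linarith

end Pool.Agent.Results.MP_e3e024_co.FanoCubic
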